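import Pool.Agent.H30.ChB
import Pool.Agent.Helper292.ForceCH

/-!
# Hereditarily separable but not sequentially separable spaces `C_p(X)`, consistently

(A) Some forcing notion forces, below every condition and over any ground model, that `ω₁` is
preserved and that the continuum hypothesis holds (a theorem about the explicit forcing relation
of `Pool/Agent/Helper292/ForceCH.lean`).

(B) The continuum hypothesis implies that there is a Tychonoff space `X`, all finite powers of which
are hereditarily Lindelöf, such that all finite powers of `C_p(X)` are hereditarily separable and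
`C_p(X)` is not sequentially separable.
-/

set_option autoImplicit false

namespace Pool.Agent.Results.MP_f4fb69_gt.ConsistentlyNoH43

open Set Filter Topology Cardinal
open Pool.Agent.H30.Ch
open Pool.Agent.Helper292.ForceCH (OmegaOnePreserved CHHolds)

/-- `C_p(X)`: the continuous real functions on `X` with the topology of pointwise convergence. -/
abbrev Cp (X : Type) [TopologicalSpace X] : Type := {f : X → ℝ // Continuous f}

/-- Every subset `E` of `Y` has a countable subset which is dense in `E`. -/
def HereditarilySeparable (Y : Type) [TopologicalSpace Y] : Prop :=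
  ∀ E : Set Y, ∃ D ⊆ E, D.Countable ∧ E ⊆ closure D

/-- `Y` has a countable subset `D` such that every point of `Y` is the limit of a sequence of points
of `D`. -/
def SequentiallySeparable (Y : Type) [TopologicalSpace Y] : Prop :=
  ∃ D : Set Y, D.Countable ∧ ∀ y : Y, ∃ u : ℕ → Y, (∀ n, u n ∈ D) ∧ Tendsto u atTop (𝓝 y)

/-- **Main theorem.** (A) Some forcing notion forces that `ω₁` is preserved and that the continuum
hypothesis holds. (B) Under the continuum hypothesis there is a Tychonoff space `X` with all finite
powers hereditarily Lindelöf, such that all finite powers of `C_p(X)` are hereditarily separable,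
but `C_p(X)` is not sequentially separable. -/
theorem result :
    (∃ (P : Type) (_ : Preorder P), Nonempty P ∧
      ∀ p : P, p ∈ OmegaOnePreserved P ∧ p ∈ CHHolds P) ∧
    ((𝔠 : Cardinal.{0}) = ℵ₁ → ∃ (X : Type) (_ : TopologicalSpace X), T35Space X ∧
      (∀ n : ℕ, HereditarilyLindelofSpace (Fin n → X)) ∧
      (∀ n : ℕ, HereditarilySeparable (Fin n → Cp X)) ∧
      ¬ SequentiallySeparable (Cp X)) := by
  refine ⟨?_, fun h => ?_⟩
  · obtain ⟨P, hP, hne, h⟩ := Pool.Agent.Helper292.ForceCH.exists_forcing
    exact ⟨P, hP, hne, fun p => ⟨(h p).1, (h p).2.2⟩⟩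
  · obtain ⟨x, hx⟩ := exists_gen h
    refine ⟨range x, inferInstance, inferInstance, hx.hl, ?_, ?_⟩
    · intro n E
      exact zenor1 (φ := fun (c : Fin n → Cp (range x)) (j : Fin n) => (c j).1)
        (IsInducing.piMap (f := fun (_ : Fin n) (z : Cp (range x)) => z.1)
          fun _ => IsInducing.subtypeVal) (fun c j => (c j).2) hx.hl E
    · rintro ⟨D, hD, hD'⟩
      obtain ⟨g, hg, hg'⟩ := hx.not_seq (D := Subtype.val '' D) (hD.image _) (by
        rintro _ ⟨f, -, rfl⟩
        exact f.2)
      obtain ⟨u, hu, hlim⟩ := hD' ⟨g, hg⟩
      exact hg' (fun n => (u n).1) (fun n => ⟨u n, hu n, rfl⟩)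
        ((continuous_subtype_val.tendsto _).comp hlim)

end Pool.Agent.Results.MP_f4fb69_gt.ConsistentlyNoH43
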